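import Pool.Agent.H93.TN.TargetsC
import Pool.Agent.H84.BR.MCB

/-!
# tn_modules, module RT: the restricted type estimate (sum of the pieces)
-/

set_option autoImplicit false

namespace Pool.Agent.H47.TN

open MeasureTheory Set FourierTransform
open Pool.Agent.H93.TN Pool.Agent.H83.LS Pool.Agent.H93.AR Pool.Agent.H54.LS Pool.Agent.H14.LS
open Pool.Agent.H83.AR Pool.Agent.H84.BR Pool.Agent.H84.B2
open scoped ENNReal NNReal

/-- small frequencies -/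
theorem small (d : ℕ) (hd : 2 ≤ d) (q : ℝ) (hq : 2 < q) (hRADL : T_RADL) (hPLE : T_PLE) :
    ∃ C : ℝ≥0, ∀ (lam A : ℝ) (F : EE d → ℂ), 1 ≤ lam → lam ≤ 100 → BI A F →
    ∫⁻ t in Icc (1 : ℝ) 2, ∫⁻ x, ‖MM (mT lam t) F x‖ₑ ^ q ≤
      C * ENNReal.ofReal (A ^ (q - 2)) * ∫⁻ x, ‖F x‖ₑ ^ 2 := by
  obtain ⟨M, C1, hC1⟩ := hRADL d hd
  obtain ⟨B, hB0, hB⟩ := Pool.Agent.H19.LS.chi_CB M
  set N : ℝ := (d : ℝ) - 1 with hN
  have hd2 : (2 : ℝ) ≤ d := by exact_mod_cast hd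
  have hN0 : 0 < N := by rw [hN]; linarith
  set K : ℝ := |C1 * B| * (201 : ℝ) ^ (N / 2) with hK
  have hK0 : 0 ≤ K := by positivity
  refine ⟨(K ^ (q - 2)).toNNReal, ?_⟩
  intro lam A F hl hl2 hF
  have hl0 : 0 < lam := by linarith
  have hA0 : 0 ≤ A := (norm_nonneg _).trans (hF.2.2 0)
  have hq2 : 0 ≤ q - 2 := by linarith
  have hsup : ∀ t ∈ Icc (1 : ℝ) 2, ∀ x, ‖MM (mT lam t) F x‖ₑ ≤ ENNReal.ofReal (K * A) := by
    intro t ht x
    refine (Pool.Agent.H19.LS.MM_sup lam hl0 hPLE t F hF.2.1 hF.1 A hF.2.2 x).trans ?_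
    rw [ENNReal.ofReal_mul hK0]
    apply mul_le_mul' _ le_rfl
    have h1 := (hC1 (fun σ => ((chi σ : ℝ) : ℂ)) B lam t hB hl0 (by linarith [ht.1])).1
    refine h1.trans (ENNReal.ofReal_le_ofReal ?_)
    have h0 : 0 ≤ 1 + lam * t := by
      have := ht.1
      positivity
    have h2 : (1 + lam * t) ^ (((d : ℝ) - 1) / 2) ≤ (201 : ℝ) ^ (N / 2) := by
      apply Real.rpow_le_rpow h0
      · nlinarith [ht.2, ht.1]
      · positivity
    calc C1 * B * (1 + lam * t) ^ (((d : ℝ) - 1) / 2)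
        ≤ |C1 * B| * (1 + lam * t) ^ (((d : ℝ) - 1) / 2) :=
          mul_le_mul_of_nonneg_right (le_abs_self _) (Real.rpow_nonneg h0 _)
      _ ≤ K := mul_le_mul_of_nonneg_left h2 (abs_nonneg _)
  have hin : ∀ t ∈ Icc (1 : ℝ) 2, ∫⁻ x, ‖MM (mT lam t) F x‖ₑ ^ q ≤
      ENNReal.ofReal ((K * A) ^ (q - 2)) * ∫⁻ x, ‖F x‖ₑ ^ 2 := by
    intro t ht
    have h2 := (hPLE d (mT lam t) F (Pool.Agent.H19.LS.mT_cont lam hl0 t).measurable
      (Pool.Agent.H19.LS.mT_le lam hl0 t) (Pool.Agent.H19.LS.mT_int lam hl0 t) hF.2.1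
      ⟨A, hF.2.2⟩ hF.1).2
    calc ∫⁻ x, ‖MM (mT lam t) F x‖ₑ ^ q
        ≤ ∫⁻ x, ENNReal.ofReal ((K * A) ^ (q - 2)) * ‖MM (mT lam t) F x‖ₑ ^ 2 := by
          refine lintegral_mono fun x => ?_
          show ‖MM (mT lam t) F x‖ₑ ^ q ≤ ENNReal.ofReal ((K * A) ^ (q - 2)) *
            ‖MM (mT lam t) F x‖ₑ ^ 2
          have h3 : ‖MM (mT lam t) F x‖ₑ ^ q = ‖MM (mT lam t) F x‖ₑ ^ (q - 2) *
              ‖MM (mT lam t) F x‖ₑ ^ 2 := by
            rw [← ENNReal.rpow_two, ← ENNReal.rpow_add_of_nonneg _ _ hq2 (by norm_num)]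
            congr 1
            ring
          rw [h3, ← ENNReal.ofReal_rpow_of_nonneg (by positivity) hq2]
          exact mul_le_mul' (ENNReal.rpow_le_rpow (hsup t ht x) hq2) le_rfl
      _ = ENNReal.ofReal ((K * A) ^ (q - 2)) * ∫⁻ x, ‖MM (mT lam t) F x‖ₑ ^ 2 :=
          lintegral_const_mul' _ _ ENNReal.ofReal_ne_top
      _ ≤ _ := mul_le_mul' le_rfl h2
  have hvol : volume (Icc (1 : ℝ) 2) = 1 := by
    rw [Real.volume_Icc]
    norm_num
  calc ∫⁻ t in Icc (1 : ℝ) 2, ∫⁻ x, ‖MM (mT lam t) F x‖ₑ ^ q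
      ≤ ∫⁻ t in Icc (1 : ℝ) 2, ENNReal.ofReal ((K * A) ^ (q - 2)) * ∫⁻ x, ‖F x‖ₑ ^ 2 :=
        setLIntegral_mono' measurableSet_Icc hin
    _ = ENNReal.ofReal ((K * A) ^ (q - 2)) * ∫⁻ x, ‖F x‖ₑ ^ 2 := by
        rw [setLIntegral_const, hvol, mul_one]
    _ = _ := by
        rw [Real.mul_rpow hK0 hA0, ENNReal.ofReal_mul (Real.rpow_nonneg hK0 _)]
        rfl

theorem eta0_zero {s : ℝ} (h : 2 ≤ s) : eta0 s = 0 := by
  unfold eta0
  exact Real.smoothTransition.zero_of_nonpos (by linarith)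

theorem pf_rt (hPHH : T_PHH) (hPHL : T_PHL) (hPLH : T_PLH) (hAM1 : Pool.Agent.H93.AR.T_AM1)
    (hAM2 : Pool.Agent.H93.AR.T_AM2) (hAC2 : Pool.Agent.H93.AR.T_AC2) (hPLE : T_PLE)
    (hRADL : T_RADL) (hJM : Pool.Agent.H83.AR.T_JM) : T_RT := by
  intro a b q η ha hb hq hq3 hη
  have ha1 : 1 ≤ a := by omega
  obtain ⟨C₁, hC₁⟩ := hPHH a b q (η / 2) ha1 hb hq hq3 (by positivity)
  obtain ⟨C₂, hC₂⟩ := hPHL a b q (η / 2) ha1 hb hq hq3 (by positivity)
  obtain ⟨C₃, hC₃⟩ := hPLH a b q (η / 2) ha1 hb hq hq3 (by positivity)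
  obtain ⟨C₄, hC₄⟩ := small (a + b) (by omega) q hq hRADL hPLE
  obtain ⟨C₅, hC₅⟩ := exK (η := η / 2) (q := 2 * q + 2) (by positivity) (by linarith)
  refine ⟨C₄ + C₅ * (C₁ + C₂ + C₃), ?_⟩
  intro lam L A f hl hL hf
  obtain ⟨-, -, -, hnorm, -, hp1c, hp2c, -⟩ := hJM a b
  obtain ⟨a1, a2, a3, a4, -⟩ := hAM1 a b L ha1 hL
  obtain ⟨b1, b2, b3, b4, -⟩ := hAM2 a b L hb hL
  have hl0 : 0 < lam := by linarith
  have hA0 : 0 ≤ A := (norm_nonneg _).trans (hf.2.2 0)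
  -- the averages
  have hA1 : ∀ g : EE (a + b) → ℂ, BI A g → BI A (A1 a b L g) := fun g hg =>
    ⟨a1 g hg.1, a4 g hg.1 hg.2.1, a2 g A hg.1 hg.2.2⟩
  have hA2 : ∀ g : EE (a + b) → ℂ, BI A g → BI A (A2 a b L g) := fun g hg =>
    ⟨b1 g hg.1, b4 g hg.1 hg.2.1, b2 g A hg.1 hg.2.2⟩
  have hI1 : ∀ g : EE (a + b) → ℂ, BI A g → ∫⁻ x, ‖A1 a b L g x‖ₑ ^ 2 ≤ ∫⁻ x, ‖g x‖ₑ ^ 2 := by
    intro g hg
    have h := a3 g 2 hg.1 (by norm_num)
    simpa only [ENNReal.rpow_two] using h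
  have hI2 : ∀ g : EE (a + b) → ℂ, BI A g → ∫⁻ x, ‖A2 a b L g x‖ₑ ^ 2 ≤ ∫⁻ x, ‖g x‖ₑ ^ 2 := by
    intro g hg
    have h := b3 g 2 hg.1 (by norm_num)
    simpa only [ENNReal.rpow_two] using h
  have hcm : ∀ g : EE (a + b) → ℂ, BI A g → A1 a b L (A2 a b L g) = A2 a b L (A1 a b L g) := by
    intro g hg
    funext x
    exact (hAC2 a b L L g ha1 hb hL hL hg.1 ⟨A, hg.2.2⟩ x).2.2
  set I := ∫⁻ x, ‖f x‖ₑ ^ 2 with hI
  set g0 := A2 a b L f with hg0
  have hg0B : BI A g0 := hA2 f hf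
  set h0 := A1 a b L g0 with hh0
  have hh0B : BI A h0 := hA1 g0 hg0B
  have hh0I : ∫⁻ x, ‖h0 x‖ₑ ^ 2 ≤ I := (hI1 g0 hg0B).trans (hI2 f hf)
  have e1 : AQ a b L f = A1 a b L (A2 a b L h0) := by
    unfold AQ
    rw [← hg0, hcm g0 hg0B]
  have e3 : AQ a b L f = A2 a b L (A1 a b L h0) := by
    rw [e1, hcm h0 hh0B]
  have hFB : BI A (AQ a b L f) := by
    rw [e1]
    exact hA1 _ (hA2 _ hh0B)
  have hFI : ∫⁻ x, ‖AQ a b L f x‖ₑ ^ 2 ≤ I := by
    rw [e1]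
    exact (hI1 _ (hA2 _ hh0B)).trans ((hI2 _ hh0B).trans hh0I)
  -- the target constant
  have hq2 : 0 ≤ 2 - q / 2 := by linarith
  have hEx : 0 ≤ ExR ((a : ℝ) + b - 1) q := le_max_left _ _
  have hone : 1 ≤ lam ^ (ExR ((a : ℝ) + b - 1) q + η) * L ^ (2 - q / 2) := by
    have h1 : 1 ≤ lam ^ (ExR ((a : ℝ) + b - 1) q + η) := Real.one_le_rpow hl (by linarith)
    have h2 : 1 ≤ L ^ (2 - q / 2) := Real.one_le_rpow hL hq2
    nlinarith
  have hAq : 0 ≤ A ^ (q - 2) := Real.rpow_nonneg hA0 _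
  rcases le_or_gt lam 100 with hsm | hbig
  · -- small frequencies
    refine (hC₄ lam A (AQ a b L f) hl hsm hFB).trans ?_
    refine mul_le_mul' (mul_le_mul' ?_ ?_) hFI
    · rw [ENNReal.coe_le_coe]
      exact le_self_add
    · apply ENNReal.ofReal_le_ofReal
      calc A ^ (q - 2) = 1 * A ^ (q - 2) := (one_mul _).symm
        _ ≤ _ := mul_le_mul_of_nonneg_right hone hAq
  -- large frequencies
  set sq := Real.sqrt lam with hsq
  have hsq1 : 1 ≤ sq := Real.one_le_sqrt.2 hl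
  have hsqs : sq * sq = lam := Real.mul_self_sqrt hl0.le
  obtain ⟨K, hK1, hK2, hK3⟩ := hC₅ lam sq hl hsq1
  set B : ℝ≥0∞ := ((C₁ + C₂ + C₃ : ℝ≥0) : ℝ≥0∞) *
    ENNReal.ofReal (lam ^ (ExR ((a : ℝ) + b - 1) q + η / 2) * L ^ (2 - q / 2) * A ^ (q - 2)) with hBd
  have hB1 : (C₁ : ℝ≥0∞) * ENNReal.ofReal
      (lam ^ (ExR ((a : ℝ) + b - 1) q + η / 2) * L ^ (2 - q / 2) * A ^ (q - 2)) ≤ B := by
    apply mul_le_mul' _ le_rfl
    rw [ENNReal.coe_le_coe, add_assoc]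
    exact le_self_add
  have hB2 : (C₂ : ℝ≥0∞) * ENNReal.ofReal
      (lam ^ (ExR ((a : ℝ) + b - 1) q + η / 2) * L ^ (2 - q / 2) * A ^ (q - 2)) ≤ B := by
    apply mul_le_mul' _ le_rfl
    rw [ENNReal.coe_le_coe, add_assoc, add_left_comm]
    exact le_self_add
  have hB3 : (C₃ : ℝ≥0∞) * ENNReal.ofReal
      (lam ^ (ExR ((a : ℝ) + b - 1) q + η / 2) * L ^ (2 - q / 2) * A ^ (q - 2)) ≤ B := by
    apply mul_le_mul' _ le_rfl
    rw [ENNReal.coe_le_coe]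
    exact le_add_self
  have hsym : Sym lam (fun t : ℝ => mT (d := a + b) lam t) :=
    { ct := fun ξ => by
        unfold mT
        exact (continuous_e.comp (by fun_prop)).mul continuous_const
      ms := fun t => (Pool.Agent.H19.LS.mT_cont lam hl0 t).measurable
      le := fun t ξ => le_rfl }
  have hp1n : ∀ ξ, ‖p1 a b ξ‖ ≤ ‖ξ‖ := by
    intro ξ
    have h1 := hnorm ξ
    exact (abs_le_of_sq_le_sq' (by nlinarith [sq_nonneg ‖p2 a b ξ‖]) (norm_nonneg _)).2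
  have hp2n : ∀ ξ, ‖p2 a b ξ‖ ≤ ‖ξ‖ := by
    intro ξ
    have h1 := hnorm ξ
    exact (abs_le_of_sq_le_sq' (by nlinarith [sq_nonneg ‖p1 a b ξ‖]) (norm_nonneg _)).2
  have hsymk : ∀ k, Sym lam (fun t ξ => mT lam t ξ * ((ck sq k ‖p1 a b ξ‖ : ℝ) : ℂ)) := fun k =>
    hsym.mul (fun ξ => ck sq k ‖p1 a b ξ‖) ((ck_meas sq k).comp hp1c.norm.measurable)
      (fun ξ => ck_abs _ _ _)
  -- the pieces
  have hpc : ∀ k l : ℕ, k ≤ K → l ≤ K → ∫⁻ t in Icc (1 : ℝ) 2, ∫⁻ x in univ,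
      ‖MM (fun ξ => (mT lam t ξ * ((ck sq k ‖p1 a b ξ‖ : ℝ) : ℂ)) *
        ((ck sq l ‖p2 a b ξ‖ : ℝ) : ℂ)) (AQ a b L f) x‖ₑ ^ q ≤ B * I := by
    intro k l hk hl'
    simp only [Measure.restrict_univ]
    have hmc : ∀ t : ℝ, (fun ξ => (mT lam t ξ * ((ck sq k ‖p1 a b ξ‖ : ℝ) : ℂ)) *
        ((ck sq l ‖p2 a b ξ‖ : ℝ) : ℂ)) = mc a b (ck sq k) (ck sq l) lam t := by
      intro t
      funext ξ
      unfold mc
      push_cast
      ring
    simp only [hmc]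
    have hck : ∀ j : ℕ, 1 ≤ j → ck sq j = fun s => chi (s / (2 ^ j * sq)) := by
      intro j hj
      funext s
      unfold ck
      rw [if_neg (by omega)]
    have hc0 : ck sq 0 = fun s => eta0 (s / sq) := by
      funext s
      unfold ck
      rw [if_pos rfl]
    have hge : ∀ j : ℕ, sq ≤ 2 ^ j * sq := by
      intro j
      have : (1 : ℝ) ≤ 2 ^ j := one_le_pow₀ (by norm_num)
      nlinarith
    rcases Nat.eq_zero_or_pos k with rfl | hk1
    · rcases Nat.eq_zero_or_pos l with rfl | hl1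
      · -- both low: zero
        have hz : ∀ t : ℝ, mc a b (ck sq 0) (ck sq 0) lam t = fun _ => 0 := by
          intro t
          funext ξ
          by_contra hne
          have hne' : mT lam t ξ * ((ck sq 0 ‖p1 a b ξ‖ * ck sq 0 ‖p2 a b ξ‖ : ℝ) : ℂ) ≠ 0 := hne
          have n1 := left_ne_zero_of_mul hne'
          have n2 : (ck sq 0 ‖p1 a b ξ‖ * ck sq 0 ‖p2 a b ξ‖ : ℝ) ≠ 0 := by
            intro h
            exact right_ne_zero_of_mul hne' (by rw [h]; simp)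
          have n3 := left_ne_zero_of_mul n2
          have n4 := right_ne_zero_of_mul n2
          rw [hc0] at n3 n4
          have hsq0 : 0 < sq := by linarith
          have m3 : ‖p1 a b ξ‖ < 2 * sq := by
            by_contra h
            push Not at h
            exact n3 (eta0_zero (by rw [le_div_iff₀ hsq0]; exact h))
          have m4 : ‖p2 a b ξ‖ < 2 * sq := by
            by_contra h
            push Not at h
            exact n4 (eta0_zero (by rw [le_div_iff₀ hsq0]; exact h))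
          have hch : chi (‖ξ‖ / lam) ≠ 0 := by
            intro h
            apply n1
            unfold mT
            rw [h]
            simp
          have m5 := (Pool.Agent.H19.LS.chi_supp _ hch).1
          rw [le_div_iff₀ hl0] at m5
          have h6 := hnorm ξ
          have h7 : ‖p1 a b ξ‖ ^ 2 ≤ 4 * lam := by
            rw [← hsqs]
            nlinarith [norm_nonneg (p1 a b ξ)]
          have h8 : ‖p2 a b ξ‖ ^ 2 ≤ 4 * lam := by
            rw [← hsqs]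
            nlinarith [norm_nonneg (p2 a b ξ)]
          have h9 : (1 / 2 * lam) ^ 2 ≤ ‖ξ‖ ^ 2 := pow_le_pow_left₀ (by positivity) m5 2
          nlinarith
        simp only [hz]
        have hMM0 : ∀ x : EE (a + b), MM (fun _ => (0 : ℂ)) (AQ a b L f) x = 0 := by
          intro x
          unfold MM
          simp
        simp only [hMM0, enorm_zero, ENNReal.zero_rpow_of_pos (by linarith : 0 < q),
          lintegral_zero]
        exact zero_le
      · -- low, high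
        rw [e3]
        simp only [hck l hl1, hc0]
        have h := hC₃ lam (2 ^ l * sq) L A (A1 a b L h0) hl (hge l) (hK2 l hl1 hl') hL
          (hA1 _ hh0B)
        exact h.trans (mul_le_mul' hB3 ((hI1 _ hh0B).trans hh0I))
    · rcases Nat.eq_zero_or_pos l with rfl | hl1
      · -- high, low
        rw [e1]
        simp only [hck k hk1, hc0]
        have h := hC₂ lam (2 ^ k * sq) L A (A2 a b L h0) hl (hge k) (hK2 k hk1 hk) hL
          (hA2 _ hh0B)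
        exact h.trans (mul_le_mul' hB2 ((hI2 _ hh0B).trans hh0I))
      · -- high, high
        rw [e1]
        simp only [hck k hk1, hck l hl1]
        have h := hC₁ lam (2 ^ k * sq) (2 ^ l * sq) L A h0 hl (hge k) (hK2 k hk1 hk)
          (hge l) (hK2 l hl1 hl') hL hh0B
        exact h.trans (mul_le_mul' hB1 hh0I)
  have hsq0 : 0 < sq := by linarith
  have hq1 : 1 ≤ q := by linarith
  have d1 := dyadic_bound hl0 hsq0 hK1 hsym (fun ξ => ‖p1 a b ξ‖) hp1c.norm.measurable hp1n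
    (AQ a b L f) hFB.2.1 hq1 univ
  have d2 : ∀ k ∈ Finset.range (K + 1), ∫⁻ t in Icc (1 : ℝ) 2, ∫⁻ x in univ,
      ‖MM (fun ξ => mT lam t ξ * ((ck sq k ‖p1 a b ξ‖ : ℝ) : ℂ)) (AQ a b L f) x‖ₑ ^ q ≤
      ((K + 1 : ℕ) : ℝ≥0∞) ^ (q + 1) * (B * I) := by
    intro k hk
    rw [Finset.mem_range] at hk
    refine (dyadic_bound hl0 hsq0 hK1 (hsymk k) (fun ξ => ‖p2 a b ξ‖) hp2c.norm.measurable hp2n
      (AQ a b L f) hFB.2.1 hq1 univ).trans ?_
    calc ((K + 1 : ℕ) : ℝ≥0∞) ^ q * ∑ l ∈ Finset.range (K + 1),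
          ∫⁻ t in Icc (1 : ℝ) 2, ∫⁻ x in univ,
            ‖MM (fun ξ => (mT lam t ξ * ((ck sq k ‖p1 a b ξ‖ : ℝ) : ℂ)) *
              ((ck sq l ‖p2 a b ξ‖ : ℝ) : ℂ)) (AQ a b L f) x‖ₑ ^ q
        ≤ ((K + 1 : ℕ) : ℝ≥0∞) ^ q * ∑ _l ∈ Finset.range (K + 1), B * I := by
          refine mul_le_mul' le_rfl (Finset.sum_le_sum fun l hl' => ?_)
          rw [Finset.mem_range] at hl'
          exact hpc k l (by omega) (by omega)
      _ = _ := by
          rw [Finset.sum_const, Finset.card_range, nsmul_eq_mul,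
            ENNReal.rpow_add_of_nonneg _ _ (by linarith) zero_le_one, ENNReal.rpow_one]
          ring
  simp only [Measure.restrict_univ] at d1 d2
  calc ∫⁻ t in Icc (1 : ℝ) 2, ∫⁻ x, ‖MM (mT lam t) (AQ a b L f) x‖ₑ ^ q
      ≤ ((K + 1 : ℕ) : ℝ≥0∞) ^ q * ∑ _k ∈ Finset.range (K + 1),
          ((K + 1 : ℕ) : ℝ≥0∞) ^ (q + 1) * (B * I) :=
        d1.trans (mul_le_mul' le_rfl (Finset.sum_le_sum d2))
    _ = ((K + 1 : ℕ) : ℝ≥0∞) ^ (2 * q + 2) * (B * I) := by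
        rw [Finset.sum_const, Finset.card_range, nsmul_eq_mul]
        have h1 : (2 : ℝ) * q + 2 = q + (1 + (q + 1)) := by ring
        have h2 : ((K + 1 : ℕ) : ℝ≥0∞) ^ (2 * q + 2) = ((K + 1 : ℕ) : ℝ≥0∞) ^ q *
            (((K + 1 : ℕ) : ℝ≥0∞) * ((K + 1 : ℕ) : ℝ≥0∞) ^ (q + 1)) := by
          rw [h1, ENNReal.rpow_add_of_nonneg q (1 + (q + 1)) (by linarith) (by linarith),
            ENNReal.rpow_add_of_nonneg 1 (q + 1) zero_le_one (by linarith), ENNReal.rpow_one]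
        rw [h2]
        ring
    _ ≤ ENNReal.ofReal ((C₅ : ℝ) * lam ^ (η / 2)) * (B * I) := by
        apply mul_le_mul' _ le_rfl
        have h5 : ((K + 1 : ℕ) : ℝ≥0∞) = ENNReal.ofReal ((K : ℝ) + 1) := by
          rw [← Nat.cast_succ, ENNReal.ofReal_natCast]
        rw [h5, ENNReal.ofReal_rpow_of_nonneg (by positivity) (by linarith)]
        exact ENNReal.ofReal_le_ofReal hK3
    _ = ((C₅ * (C₁ + C₂ + C₃) : ℝ≥0) : ℝ≥0∞) * ENNReal.ofReal
          (lam ^ (ExR ((a : ℝ) + b - 1) q + η) * L ^ (2 - q / 2) * A ^ (q - 2)) * I := by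
        rw [ENNReal.ofReal_mul (NNReal.coe_nonneg C₅), ENNReal.ofReal_coe_nnreal, hBd,
          ENNReal.coe_mul]
        have h7 : ENNReal.ofReal (lam ^ (ExR ((a : ℝ) + b - 1) q + η) * L ^ (2 - q / 2) *
            A ^ (q - 2)) = ENNReal.ofReal (lam ^ (η / 2)) * ENNReal.ofReal
            (lam ^ (ExR ((a : ℝ) + b - 1) q + η / 2) * L ^ (2 - q / 2) * A ^ (q - 2)) := by
          rw [← ENNReal.ofReal_mul (by positivity)]
          congr 1
          have h8 : lam ^ (ExR ((a : ℝ) + b - 1) q + η) =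
              lam ^ (η / 2) * lam ^ (ExR ((a : ℝ) + b - 1) q + η / 2) := by
            rw [← Real.rpow_add hl0]
            congr 1
            ring
          rw [h8]
          ring
        rw [h7]
        ring
    _ ≤ _ := by
        apply mul_le_mul' (mul_le_mul' _ le_rfl) le_rfl
        rw [ENNReal.coe_le_coe]
        exact le_add_self

end Pool.Agent.H47.TN
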