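import Pool.Agent.H93.TN.TargetsA
import Pool.Agent.H14.TN.RAD

/-!
# tn_modules, module SEL: integrals of the kernels of sectors
-/

set_option autoImplicit false

namespace Pool.Agent.H47.TN

open MeasureTheory Set FourierTransform
open Pool.Agent.H93.TN Pool.Agent.H83.LS Pool.Agent.H93.AR Pool.Agent.H54.LS Pool.Agent.H14.LS
open Pool.Agent.H83.AR Pool.Agent.H84.BR Pool.Agent.H84.B2
open scoped ENNReal NNReal

theorem eta0_smooth : ContDiff ℝ (⊤ : ℕ∞) eta0 := by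
  unfold eta0
  exact Real.smoothTransition.contDiff.comp (contDiff_const.sub contDiff_id)

theorem eta0_nonneg (s : ℝ) : 0 ≤ eta0 s := Real.smoothTransition.nonneg _

theorem eta0_le_one (s : ℝ) : eta0 s ≤ 1 := Real.smoothTransition.le_one _

theorem sy_smooth (n : ℕ) {ψ : ℝ → ℝ} (h : RC ψ) {Lam : ℝ} (hL : 0 < Lam) (r : ℝ) (u : EE n) :
    ContDiff ℝ (⊤ : ℕ∞) (sy n ψ Lam r u) := by
  rw [contDiff_iff_contDiffAt]
  intro ξ
  by_cases hξ : ξ = 0
  · subst hξ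
    refine (contDiffAt_const (c := (0 : ℂ))).congr_of_eventuallyEq ?_
    have h1 : ∀ᶠ η : EE n in nhds 0, ‖η‖ < Lam / 8 := by
      have h2 : ContinuousAt (fun η : EE n => ‖η‖) 0 := continuous_norm.continuousAt
      have h3 : ‖(0 : EE n)‖ < Lam / 8 := by
        rw [norm_zero]
        positivity
      exact h2.eventually_lt continuousAt_const h3
    filter_upwards [h1] with η hη
    have h4 : ψ (‖η‖ / Lam) = 0 := by
      by_contra hne
      have h5 := (h.2 _ hne).1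
      rw [le_div_iff₀ hL] at h5
      linarith
    unfold sy
    rw [h4]
    simp
  · have hn : ‖ξ‖ ≠ 0 := norm_ne_zero_iff.2 hξ
    have h0 : ContDiffAt ℝ (⊤ : ℕ∞) (fun ξ : EE n => ‖ξ‖) ξ := contDiffAt_norm ℝ hξ
    have h1 : ContDiffAt ℝ (⊤ : ℕ∞) (fun ξ : EE n => ‖ξ‖ / Lam) ξ := h0.div_const Lam
    have h2 : ContDiffAt ℝ (⊤ : ℕ∞) (fun ξ : EE n => ψ (‖ξ‖ / Lam)) ξ :=
      h.1.contDiffAt.comp ξ h1
    have h3 : ContDiffAt ℝ (⊤ : ℕ∞) (fun ξ : EE n => ‖ξ‖⁻¹ • ξ - u) ξ :=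
      ((h0.inv hn).smul contDiffAt_id).sub contDiffAt_const
    have h4 : ContDiffAt ℝ (⊤ : ℕ∞) (fun ξ : EE n => ‖‖ξ‖⁻¹ • ξ - u‖ ^ 2 / r ^ 2) ξ :=
      (h3.norm_sq ℝ).div_const _
    have h5 : ContDiffAt ℝ (⊤ : ℕ∞) (fun ξ : EE n => eta0 ((‖‖ξ‖⁻¹ • ξ - u‖ / r) ^ 2)) ξ := by
      have h6 : (fun ξ : EE n => eta0 ((‖‖ξ‖⁻¹ • ξ - u‖ / r) ^ 2)) =
          fun ξ : EE n => eta0 (‖‖ξ‖⁻¹ • ξ - u‖ ^ 2 / r ^ 2) := by
        funext ξ
        rw [div_pow]
      rw [h6]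
      exact eta0_smooth.contDiffAt.comp ξ h4
    exact Complex.ofRealCLM.contDiff.contDiffAt.comp ξ (h2.mul h5)

theorem sy_compact (n : ℕ) {ψ : ℝ → ℝ} (h : RC ψ) {Lam : ℝ} (hL : 0 < Lam) (r : ℝ) (u : EE n) :
    HasCompactSupport (sy n ψ Lam r u) := by
  refine HasCompactSupport.intro (isCompact_closedBall (0 : EE n) (8 * Lam)) ?_
  intro ξ hξ
  rw [mem_closedBall_zero_iff] at hξ
  push Not at hξ
  have h4 : ψ (‖ξ‖ / Lam) = 0 := by
    by_contra hne
    have h5 := (h.2 _ hne).2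
    rw [div_le_iff₀ hL] at h5
    linarith
  unfold sy
  rw [h4]
  simp

/-- coordinates adapted to a unit vector -/
theorem coords (hSPL : T_SPL) (m : ℕ) (u : EE (m + 1)) (hu : ‖u‖ = 1) :
    ∃ T : EE m × ℝ → EE (m + 1), (∀ F : EE (m + 1) → ℝ≥0∞, ∫⁻ x, F x = ∫⁻ p, F (T p)) ∧
      (∀ p, inner ℝ (T p) u = p.2) ∧ ∀ p, ‖T p - (inner ℝ (T p) u : ℝ) • u‖ = ‖p.1‖ := by
  obtain ⟨Φ, hΦ, h1, h2⟩ := hSPL m
  have hon : Orthonormal ℝ (({Fin.last m} : Set (Fin (m + 1))).domRestrict fun _ => u) := by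
    constructor
    · intro i
      exact hu
    · rintro ⟨i, hi⟩ ⟨j, hj⟩ hij
      exact absurd (Subtype.ext ((mem_singleton_iff.1 hi).trans (mem_singleton_iff.1 hj).symm)) hij
  obtain ⟨b, hb⟩ := hon.exists_orthonormalBasis_extension_of_card_eq (by
    rw [finrank_euclideanSpace_fin, Fintype.card_fin])
  have hbl : b (Fin.last m) = u := hb _ (mem_singleton _)
  have hin : ∀ p : EE m × ℝ, inner ℝ (b.repr.symm (Φ p)) u = p.2 := by
    intro p
    rw [real_inner_comm, ← hbl, ← b.repr_apply_apply, LinearIsometryEquiv.apply_symm_apply]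
    exact h1 p.1 p.2
  refine ⟨fun p => b.repr.symm (Φ p), ?_, hin, ?_⟩
  · intro F
    have e1 : ∫⁻ x, F x = ∫⁻ y, F (b.repr.symm y) :=
      (b.measurePreserving_repr_symm.lintegral_comp_emb
        b.repr.symm.toHomeomorph.measurableEmbedding F).symm
    rw [e1]
    exact (hΦ.lintegral_comp_emb Φ.measurableEmbedding fun y => F (b.repr.symm y)).symm
  · intro p
    have e2 : ‖b.repr.symm (Φ p)‖ ^ 2 = ‖p.1‖ ^ 2 + p.2 ^ 2 := by
      rw [LinearIsometryEquiv.norm_map, ← real_inner_self_eq_norm_sq,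
        ← real_inner_self_eq_norm_sq]
      have := h2 p.1 p.1 p.2 p.2
      rw [show (p.1, p.2) = p from rfl] at this
      rw [this]
      ring
    have e3 : ‖b.repr.symm (Φ p) - (inner ℝ (b.repr.symm (Φ p)) u : ℝ) • u‖ ^ 2 = ‖p.1‖ ^ 2 := by
      rw [norm_sub_sq_real, real_inner_smul_right, norm_smul, hu, hin p, e2, mul_one,
        Real.norm_eq_abs, sq_abs]
      ring
    exact (pow_left_inj₀ (norm_nonneg _) (norm_nonneg _) two_ne_zero).1 e3

theorem lint_smul_real (g : ℝ → ℝ≥0∞) {Lam : ℝ} (hL : 0 < Lam) :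
    ∫⁻ z : ℝ, g (Lam * z) = ENNReal.ofReal (Lam⁻¹) * ∫⁻ z, g z := by
  have h1 := Measure.map_addHaar_smul (volume : Measure ℝ) hL.ne'
  rw [Module.finrank_self, abs_of_pos (by positivity), pow_one] at h1
  have h2 : ∫⁻ x : ℝ, g (Lam * x) =
      ∫⁻ y, g y ∂(Measure.map (fun x : ℝ => Lam • x) volume) := by
    have := lintegral_map_equiv (μ := (volume : Measure ℝ)) g
      (MeasurableEquiv.smul₀ Lam hL.ne')
    exact this.symm
  rw [h2]
  have h3 : (fun x : ℝ => Lam • x) = (Lam • ·) := rfl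
  rw [h3, h1, lintegral_smul_measure, smul_eq_mul]

theorem pf_sel (hSEC : T_SEC) (hSPL : T_SPL) : T_SEL := by
  intro n N ψ hn hψ
  obtain ⟨C1, hC1, hb⟩ := Pool.Agent.H14.TN.psi_bdd hψ
  obtain ⟨C2, hC2, hs⟩ := hSEC n N ψ hn hψ
  obtain ⟨C3, hC3, hs'⟩ := hSEC n (N + (n + 1)) ψ hn hψ
  obtain ⟨m, rfl⟩ : ∃ m, n = m + 1 := ⟨n - 1, by omega⟩
  -- the two integrals
  set g1 : ℝ → ℝ≥0∞ := fun z => ENNReal.ofReal ((1 + ‖z‖) ^ (-(2 : ℝ))) with hg1
  set g2 : EE m → ℝ≥0∞ := fun y => ENNReal.ofReal ((1 + ‖y‖) ^ (-((m : ℝ) + 1))) with hg2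
  have hm1 : Measurable g1 := by
    rw [hg1]
    exact ((measurable_norm.const_add 1).pow_const _).ennreal_ofReal
  have hm2 : Measurable g2 := by
    rw [hg2]
    exact ((measurable_norm.const_add 1).pow_const _).ennreal_ofReal
  have hf1 : ∫⁻ z : ℝ, g1 z < ∞ :=
    finite_integral_one_add_norm (by rw [Module.finrank_self]; norm_num)
  have hf2 : ∫⁻ y : EE m, g2 y < ∞ :=
    finite_integral_one_add_norm (by rw [finrank_euclideanSpace_fin]; linarith)
  set J1 := (∫⁻ z : ℝ, g1 z).toReal with hJ1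
  set J2 := (∫⁻ y : EE m, g2 y).toReal with hJ2
  have hJ1e : ∫⁻ z : ℝ, g1 z = ENNReal.ofReal J1 := (ENNReal.ofReal_toReal hf1.ne).symm
  have hJ2e : ∫⁻ y : EE m, g2 y = ENNReal.ofReal J2 := (ENNReal.ofReal_toReal hf2.ne).symm
  have hJ10 : 0 ≤ J1 := ENNReal.toReal_nonneg
  have hJ20 : 0 ≤ J2 := ENNReal.toReal_nonneg
  have hC4 : 0 ≤ C3 * (J2 * J1) := mul_nonneg hC3 (mul_nonneg hJ20 hJ10)
  refine ⟨C1 + C2 + C3 * (J2 * J1), by positivity, ?_⟩
  intro Lam r u hL hr hr8 hu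
  have hr1 : r ≤ 1 := by linarith
  -- the main integral
  have key : ∫⁻ x, ‖MK (sy (m + 1) ψ Lam r u) x‖ₑ *
      ENNReal.ofReal ((1 + Lam * |inner ℝ x u|) ^ N) ≤ ENNReal.ofReal (C3 * (J2 * J1)) := by
    obtain ⟨T, hT1, hT2, hT3⟩ := coords hSPL m u hu
    rw [hT1]
    have hpt : ∀ p : EE m × ℝ, ‖MK (sy (m + 1) ψ Lam r u) (T p)‖ₑ *
        ENNReal.ofReal ((1 + Lam * |inner ℝ (T p) u|) ^ N) ≤
        ENNReal.ofReal (C3 * Lam ^ (m + 1) * r ^ m) * (g2 ((Lam * r) • p.1) * g1 (Lam * p.2)) := by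
      intro p
      have e0 := hs' Lam r u (T p) hL hr hr8 hu
      rw [hT3, hT2, Nat.add_sub_cancel] at e0
      rw [hT2, ← ofReal_norm, ← ENNReal.ofReal_mul (norm_nonneg _), hg1, hg2,
        ← ENNReal.ofReal_mul (by positivity), ← ENNReal.ofReal_mul (by positivity)]
      apply ENNReal.ofReal_le_ofReal
      have hz : 1 ≤ 1 + Lam * |p.2| := by
        have := mul_nonneg hL.le (abs_nonneg p.2)
        linarith
      have hy : 1 ≤ 1 + Lam * r * ‖p.1‖ := by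
        have := mul_nonneg (mul_nonneg hL.le hr.le) (norm_nonneg p.1)
        linarith
      have hzn : ‖Lam * p.2‖ = Lam * |p.2| := by
        rw [norm_mul, Real.norm_of_nonneg hL.le, Real.norm_eq_abs]
      have hyn : ‖(Lam * r) • p.1‖ = Lam * r * ‖p.1‖ := by
        rw [norm_smul, Real.norm_of_nonneg (by positivity)]
      rw [hzn, hyn]
      have q1 : (1 + Lam * |p.2|) ^ (-(2 : ℝ)) = ((1 + Lam * |p.2|) ^ 2)⁻¹ := by
        rw [Real.rpow_neg (by linarith), ← Real.rpow_natCast]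
        norm_num
      have q2 : (1 + Lam * r * ‖p.1‖) ^ (-((m : ℝ) + 1)) =
          ((1 + Lam * r * ‖p.1‖) ^ (m + 1))⁻¹ := by
        rw [Real.rpow_neg (by linarith), ← Real.rpow_natCast]
        push_cast
        rfl
      rw [q1, q2]
      set A := 1 + Lam * |p.2| with hA
      set B := 1 + Lam * r * ‖p.1‖ with hB
      have a1 : (A ^ (N + (m + 1 + 1)))⁻¹ * A ^ N ≤ (A ^ 2)⁻¹ := by
        have hA0 : 0 < A := by linarith
        rw [pow_add, mul_inv, mul_comm (A ^ N)⁻¹, mul_assoc, inv_mul_cancel₀ (by positivity),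
          mul_one]
        exact inv_anti₀ (by positivity) (pow_le_pow_right₀ hz (by omega))
      have a2 : (B ^ (N + (m + 1 + 1)))⁻¹ ≤ (B ^ (m + 1))⁻¹ := by
        have hB0 : 0 < B := by linarith
        exact inv_anti₀ (by positivity) (pow_le_pow_right₀ hy (by omega))
      have hA0 : 0 < A := by linarith
      have hB0 : 0 < B := by linarith
      calc ‖MK (sy (m + 1) ψ Lam r u) (T p)‖ * A ^ N
          ≤ (C3 * Lam ^ (m + 1) * r ^ m * (A ^ (N + (m + 1 + 1)))⁻¹ *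
            (B ^ (N + (m + 1 + 1)))⁻¹) * A ^ N := by
            exact mul_le_mul_of_nonneg_right e0 (by positivity)
        _ = C3 * Lam ^ (m + 1) * r ^ m * ((B ^ (N + (m + 1 + 1)))⁻¹ *
            ((A ^ (N + (m + 1 + 1)))⁻¹ * A ^ N)) := by ring
        _ ≤ C3 * Lam ^ (m + 1) * r ^ m * ((B ^ (m + 1))⁻¹ * (A ^ 2)⁻¹) := by
            refine mul_le_mul_of_nonneg_left ?_ (by positivity)
            exact mul_le_mul a2 a1 (by positivity) (by positivity)
    refine (lintegral_mono hpt).trans ?_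
    rw [lintegral_const_mul' _ _ ENNReal.ofReal_ne_top]
    have hprod : ∫⁻ p : EE m × ℝ, g2 ((Lam * r) • p.1) * g1 (Lam * p.2) =
        (∫⁻ y, g2 ((Lam * r) • y)) * ∫⁻ z, g1 (Lam * z) :=
      lintegral_prod_mul (μ := (volume : Measure (EE m))) (ν := (volume : Measure ℝ))
        (f := fun y => g2 ((Lam * r) • y)) (g := fun z => g1 (Lam * z))
        (hm2.comp (measurable_const_smul _)).aemeasurable
        (hm1.comp (measurable_const_mul _)).aemeasurable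
    have hprod' : ∫⁻ p : EE m × ℝ, g2 ((Lam * r) • p.1) * g1 (Lam * p.2)
        = ENNReal.ofReal (((Lam * r) ^ m)⁻¹ * J2 * (Lam⁻¹ * J1)) := by
      rw [hprod, Pool.Agent.H14.TN.lint_smul m g2 (mul_pos hL hr), lint_smul_real g1 hL, hJ1e,
        hJ2e, ← ENNReal.ofReal_mul (by positivity), ← ENNReal.ofReal_mul (by positivity),
        ← ENNReal.ofReal_mul (by positivity)]
    rw [hprod', ← ENNReal.ofReal_mul (by positivity)]
    apply ENNReal.ofReal_le_ofReal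
    apply le_of_eq
    rw [mul_pow, pow_succ]
    field_simp
  refine ⟨⟨sy_smooth _ hψ hL r u, sy_compact _ hψ hL r u⟩, ?_, ?_, ?_, ?_⟩
  · intro ξ
    unfold sy
    rw [Complex.norm_real, Real.norm_eq_abs, abs_mul, abs_of_nonneg (eta0_nonneg _)]
    calc |ψ (‖ξ‖ / Lam)| * eta0 ((‖‖ξ‖⁻¹ • ξ - u‖ / r) ^ 2) ≤ C1 * 1 :=
          mul_le_mul (hb _) (eta0_le_one _) (eta0_nonneg _) hC1
      _ ≤ C1 + C2 + C3 * (J2 * J1) := by linarith
  · exact key.trans (ENNReal.ofReal_le_ofReal (by linarith))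
  · intro D hD
    have hD1 : 0 < 1 + Lam * D := by positivity
    have hms : MeasurableSet {x : EE (m + 1) | D ≤ |inner ℝ x u|} := by
      have hc : Continuous fun x : EE (m + 1) => |inner ℝ x u| := by fun_prop
      exact (isClosed_le continuous_const hc).measurableSet
    have hle : ∫⁻ x in {x : EE (m + 1) | D ≤ |inner ℝ x u|}, ‖MK (sy (m + 1) ψ Lam r u) x‖ₑ ≤
        ∫⁻ x in {x : EE (m + 1) | D ≤ |inner ℝ x u|}, (‖MK (sy (m + 1) ψ Lam r u) x‖ₑ *
          ENNReal.ofReal ((1 + Lam * |inner ℝ x u|) ^ N)) *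
          ENNReal.ofReal (((1 + Lam * D) ^ N)⁻¹) := by
      refine setLIntegral_mono' hms ?_
      intro x hx
      rw [mul_assoc, ← ENNReal.ofReal_mul (by positivity)]
      have h1 : 1 ≤ (1 + Lam * |inner ℝ x u|) ^ N * ((1 + Lam * D) ^ N)⁻¹ := by
        rw [← div_eq_mul_inv, one_le_div (by positivity)]
        refine pow_le_pow_left₀ hD1.le ?_ N
        have := mul_le_mul_of_nonneg_left hx hL.le
        linarith
      calc ‖MK (sy (m + 1) ψ Lam r u) x‖ₑ = ‖MK (sy (m + 1) ψ Lam r u) x‖ₑ * 1 :=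
            (mul_one _).symm
        _ ≤ _ := by
            gcongr
            rw [← ENNReal.ofReal_one]
            exact ENNReal.ofReal_le_ofReal h1
    refine hle.trans ?_
    rw [lintegral_mul_const' _ _ ENNReal.ofReal_ne_top]
    rw [ENNReal.ofReal_mul (by positivity)]
    gcongr
    exact (setLIntegral_le_lintegral _ _).trans (key.trans (ENNReal.ofReal_le_ofReal
      (by linarith)))
  · intro x
    have e0 := hs Lam r u x hL hr hr8 hu
    rw [Nat.add_sub_cancel] at e0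
    set A := 1 + Lam * |inner ℝ x u| with hA
    set B := 1 + Lam * r * ‖x - (inner ℝ x u : ℝ) • u‖ with hB
    have hA1 : 0 ≤ Lam * |inner ℝ x u| := by positivity
    have hB1 : 0 ≤ Lam * r * ‖x - (inner ℝ x u : ℝ) • u‖ := by positivity
    have hA0 : 0 < A := by linarith
    have hB0 : 0 < B := by linarith
    have hx : ‖x‖ ≤ ‖x - (inner ℝ x u : ℝ) • u‖ + |inner ℝ x u| := by
      have h1 : x = (x - (inner ℝ x u : ℝ) • u) + (inner ℝ x u : ℝ) • u := by
        rw [sub_add_cancel]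
      have h2 : ‖(inner ℝ x u : ℝ) • u‖ = |inner ℝ x u| := by
        rw [norm_smul, hu, mul_one, Real.norm_eq_abs]
      calc ‖x‖ = ‖(x - (inner ℝ x u : ℝ) • u) + (inner ℝ x u : ℝ) • u‖ := by rw [← h1]
        _ ≤ _ := (norm_add_le _ _).trans (by rw [h2])
    have hAB : 1 + Lam * r * ‖x‖ ≤ A * B := by
      have h1 : Lam * r * ‖x‖ ≤ Lam * r * ‖x - (inner ℝ x u : ℝ) • u‖ +
          Lam * r * |inner ℝ x u| := by
        rw [← mul_add]
        exact mul_le_mul_of_nonneg_left hx (by positivity)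
      have h2 : Lam * r * |inner ℝ x u| ≤ Lam * |inner ℝ x u| := by
        have : Lam * r ≤ Lam := by nlinarith
        exact mul_le_mul_of_nonneg_right this (abs_nonneg _)
      have h3 : A * B = 1 + Lam * |inner ℝ x u| + Lam * r * ‖x - (inner ℝ x u : ℝ) • u‖ +
          (Lam * |inner ℝ x u|) * (Lam * r * ‖x - (inner ℝ x u : ℝ) • u‖) := by
        rw [hA, hB]; ring
      have h4 := mul_nonneg hA1 hB1
      linarith
    have hX : 0 < 1 + Lam * r * ‖x‖ := by positivity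
    have h5 : (A ^ N)⁻¹ * (B ^ N)⁻¹ ≤ ((1 + Lam * r * ‖x‖) ^ N)⁻¹ := by
      rw [← mul_inv, ← mul_pow]
      exact inv_anti₀ (by positivity) (pow_le_pow_left₀ hX.le hAB N)
    have h6 : r ^ m ≤ 1 := pow_le_one₀ hr.le hr1
    calc ‖MK (sy (m + 1) ψ Lam r u) x‖ ≤ C2 * Lam ^ (m + 1) * r ^ m * (A ^ N)⁻¹ * (B ^ N)⁻¹ := e0
      _ = (C2 * Lam ^ (m + 1)) * r ^ m * ((A ^ N)⁻¹ * (B ^ N)⁻¹) := by ring
      _ ≤ (C2 * Lam ^ (m + 1)) * 1 * ((1 + Lam * r * ‖x‖) ^ N)⁻¹ := by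
          refine mul_le_mul ?_ h5 (by positivity) (by positivity)
          exact mul_le_mul_of_nonneg_left h6 (by positivity)
      _ ≤ (C1 + C2 + C3 * (J2 * J1)) * Lam ^ (m + 1) * ((1 + Lam * r * ‖x‖) ^ N)⁻¹ := by
          rw [mul_one]
          gcongr
          linarith

end Pool.Agent.H47.TN
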